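import Mathlib
import Pool.Agent.H31.Theta2

set_option autoImplicit false
open Pool.Agent.H31 Pool.Agent.H31.SatDefs

namespace Pool.Agent.Results.MP_50682e_co.Theta

theorem result : ¬ ∀ r : ℕ, 5 ≤ r → ∃ N : ℕ, ∀ n ≥ N,
    (sat n (Set.Icc 4 r) : ℤ) = ⌈(5 * n : ℚ) / 4 - 3 / 2⌉ := by
  intro h
  obtain ⟨N, h⟩ := h 11 (by omega)
  have a := h ((N + 2) * 5 + 2) (by omega)
  have b := Theta2.sat_upper (m := N + 2) (l := 5) (by omega) (by omega)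
  have c := Int.le_ceil ((5 * (((N + 2) * 5 + 2 : ℕ) : ℚ)) / 4 - 3 / 2)
  rw [← a] at c
  have b' : (sat ((N + 2) * 5 + 2) (Set.Icc 4 11) : ℚ) ≤ (N + 2) * 6 := by exact_mod_cast b
  have : (0 : ℚ) ≤ N := Nat.cast_nonneg N
  push_cast at c
  linarith

end Pool.Agent.Results.MP_50682e_co.Theta
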